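import Pool.Agent.Run7.h247.Final2

/-!
# The refined Shareshian-Wachs conjecture when large cliques start at separating vertices

The natural unit interval order on `n` points is given by a monotone `h : Fin n → Fin n` with
`i ≤ h i`; in its incomparability graph `i < j` are adjacent iff `j ≤ h i`. The maximal cliques are
the intervals `[j, h j]` with `h j` not equal to any earlier `h l`. We assume that each of them
has at most three vertices (`h j ≤ j + 2`) or starts at a vertex `j` that no edge jumps over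
(`h l ≤ j` for all `l < j`). Cliques of any size may occur.
-/

set_option autoImplicit false

theorem Pool.Agent.Results.MP_263316_co.CutCliques.result :
    ∀ (n : ℕ) (h : Fin n → Fin n), Monotone h → (∀ i, i ≤ h i) →
    (∀ j, (h j).val ≤ j.val + 2 ∨ (∃ l, l < j ∧ h l = h j) ∨ (∀ l, l < j → h l ≤ j)) →
    ∀ E : ℕ, E = (Finset.univ.filter (fun p : Fin n × Fin n => p.1 < p.2 ∧ p.2 ≤ h p.1)).card →
    ∃ a : Nat.Partition n → Polynomial ℤ,
      ((∑ κ ∈ (Finset.univ.filter
            (fun κ : Fin n → Fin n => ∀ i j : Fin n, i < j → j ≤ h i → κ i ≠ κ j)),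
          MvPolynomial.C (Polynomial.X ^ ((Finset.univ.filter
            (fun p : Fin n × Fin n => p.1 < p.2 ∧ p.2 ≤ h p.1 ∧ κ p.1 < κ p.2)).card))
            * ∏ i : Fin n, MvPolynomial.X (κ i) : MvPolynomial (Fin n) (Polynomial ℤ))
        = ∑ μ : Nat.Partition n, MvPolynomial.C (a μ) *
            (μ.parts.map (fun k => MvPolynomial.esymm (Fin n) (Polynomial ℤ) k)).prod)
      ∧ ∀ μ : Nat.Partition n,
          (∀ i : ℕ, 0 ≤ (a μ).coeff i)
          ∧ (∀ i : ℕ, E < i → (a μ).coeff i = 0)
          ∧ (∀ i : ℕ, i ≤ E → (a μ).coeff i = (a μ).coeff (E - i))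
          ∧ (∀ i j : ℕ, i ≤ j → 2 * j ≤ E → (a μ).coeff i ≤ (a μ).coeff j) := by
  intro n h hmono _ hcls E hE
  exact Run7.h247.cut_cliques n h hmono hcls E hE
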